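import Pool.Agent.Helper25.GF.Goals

/-!
# Project GF (MP_766b49_co): packet GF-ABB
-/

set_option autoImplicit false

namespace Pool.Agent.Helper81.GF

open Finset Pool.Agent.Helper25.GF

theorem kk_succ (I : Finset ℕ) (t : ℕ) : kk I (t + 1) = kk I t + if t ∈ I then 1 else 0 := by
  have h : ∑ x ∈ I, (if x = t then 1 else 0) = if t ∈ I then 1 else 0 := Finset.sum_ite_eq' I t _
  rw [kk, kk, card_filter, card_filter, ← h, ← sum_add_distrib]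
  refine sum_congr rfl fun x _ => ?_
  split_ifs <;> omega

theorem kk_le (I : Finset ℕ) (t : ℕ) : kk I t ≤ t := by
  have h : I.filter (· < t) ⊆ range t := by
    intro x hx
    rw [mem_filter] at hx
    exact mem_range.2 hx.2
  have := card_le_card h
  rwa [card_range] at this

theorem step (a N e : ℝ) (hN : 1 ≤ N) (he : e = 0 ∨ e = 1) :
    a ^ 2 / (N + 1) ^ 3 + (a + e) ^ 2 / (2 * (N + 1) ^ 2) + 1 / (2 * (N + 1)) ≤
      a ^ 2 / (2 * N ^ 2) + e * (a / (N + 1) ^ 2) + 1 / (2 * N) := by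
  have h0 : (0 : ℝ) < N := by linarith
  have h1 : (0 : ℝ) < N + 1 := by linarith
  have e1 : a ^ 2 / (2 * N ^ 2) + e * (a / (N + 1) ^ 2) + 1 / (2 * N) -
      (a ^ 2 / (N + 1) ^ 3 + (a + e) ^ 2 / (2 * (N + 1) ^ 2) + 1 / (2 * (N + 1))) =
      a ^ 2 * (3 * N + 1) / (2 * N ^ 2 * (N + 1) ^ 3) +
        ((N + 1) - e ^ 2 * N) / (2 * N * (N + 1) ^ 2) := by
    field_simp
    ring
  have h2 : 0 ≤ (N + 1) - e ^ 2 * N := by
    rcases he with h | h <;> rw [h] <;> nlinarith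
  have h3 : 0 ≤ a ^ 2 * (3 * N + 1) / (2 * N ^ 2 * (N + 1) ^ 3) := by positivity
  have h4 : 0 ≤ ((N + 1) - e ^ 2 * N) / (2 * N * (N + 1) ^ 2) := div_nonneg h2 (by positivity)
  linarith

theorem main (I : Finset ℕ) (M : ℕ) :
    ∑ t ∈ Ico 2 (M + 2), (kk I t : ℝ) ^ 2 / (t : ℝ) ^ 3 +
      (kk I (M + 2) : ℝ) ^ 2 / (2 * ((M : ℝ) + 1) ^ 2) + 1 / (2 * ((M : ℝ) + 1)) ≤
    ∑ t ∈ range (M + 2), (if t ∈ I ∧ 0 < t then (kk I t : ℝ) / (t : ℝ) ^ 2 else 0) + 2 := by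
  induction M with
  | zero =>
    rw [sum_range_succ, sum_range_succ, sum_range_zero]
    have h0 : kk I 0 = 0 := by
      have := kk_le I 0
      omega
    rw [show (0 : ℕ) + 2 = 1 + 1 from rfl, kk_succ I 1, kk_succ I 0, h0]
    by_cases h1 : (0 : ℕ) ∈ I <;> by_cases h2 : (1 : ℕ) ∈ I <;> simp [h1, h2] <;> norm_num
  | succ M ih =>
    have e1 : ∑ t ∈ Ico 2 (M + 1 + 2), (kk I t : ℝ) ^ 2 / (t : ℝ) ^ 3 =
        ∑ t ∈ Ico 2 (M + 2), (kk I t : ℝ) ^ 2 / (t : ℝ) ^ 3 +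
          (kk I (M + 2) : ℝ) ^ 2 / ((M + 2 : ℕ) : ℝ) ^ 3 := by
      rw [show M + 1 + 2 = (M + 2) + 1 from rfl, sum_Ico_succ_top (by omega)]
    have e2 : ∑ t ∈ range (M + 1 + 2),
        (if t ∈ I ∧ 0 < t then (kk I t : ℝ) / (t : ℝ) ^ 2 else 0) =
        ∑ t ∈ range (M + 2), (if t ∈ I ∧ 0 < t then (kk I t : ℝ) / (t : ℝ) ^ 2 else 0) +
          (if M + 2 ∈ I then 1 else 0 : ℝ) * ((kk I (M + 2) : ℝ) / ((M + 2 : ℕ) : ℝ) ^ 2) := by
      rw [show M + 1 + 2 = (M + 2) + 1 from rfl, sum_range_succ]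
      congr 1
      by_cases h : M + 2 ∈ I <;> simp [h]
    have e3 : (kk I (M + 1 + 2) : ℝ) = (kk I (M + 2) : ℝ) + (if M + 2 ∈ I then 1 else 0 : ℝ) := by
      rw [show M + 1 + 2 = (M + 2) + 1 from rfl, kk_succ]
      push_cast
      rfl
    have h4 := step (kk I (M + 2)) ((M : ℝ) + 1) (if M + 2 ∈ I then 1 else 0 : ℝ)
      (by linarith [(Nat.cast_nonneg M : (0 : ℝ) ≤ M)]) (by split_ifs <;> simp)
    have c1 : ((M + 2 : ℕ) : ℝ) = (M : ℝ) + 1 + 1 := by push_cast; ring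
    have c2 : ((M + 1 : ℕ) : ℝ) + 1 = (M : ℝ) + 1 + 1 := by push_cast; ring
    rw [e1, e2, e3, c1, c2]
    linarith

theorem abb : ABB := by
  intro I N _
  have hE : 0 ≤ E2 I := sum_nonneg fun t _ => by positivity
  rcases lt_or_ge N 2 with h | h
  · rw [Ico_eq_empty_of_le (by omega), sum_empty]
    linarith
  · obtain ⟨M, rfl⟩ : ∃ M, N = M + 2 := ⟨N - 2, by omega⟩
    have h1 := main I M
    have h2 : ∑ t ∈ range (M + 2), (if t ∈ I ∧ 0 < t then (kk I t : ℝ) / (t : ℝ) ^ 2 else 0) ≤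
        E2 I := by
      rw [← sum_filter]
      refine sum_le_sum_of_subset_of_nonneg ?_ fun t _ _ => by positivity
      intro t ht
      rw [mem_filter] at ht
      exact mem_filter.2 ht.2
    have h3 : 0 ≤ (kk I (M + 2) : ℝ) ^ 2 / (2 * ((M : ℝ) + 1) ^ 2) := by positivity
    have h4 : 0 ≤ 1 / (2 * ((M : ℝ) + 1)) := by positivity
    linarith

end Pool.Agent.Helper81.GF
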